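import Pool.Agent.helper76.FV.Defs

namespace Pool.Agent.helper76.FV

open Finset

theorem local_const {k d : ℕ} (A : Fin k → Fin d → ℤ) (β : Fin k → ℚ) (v : Fin d → ℚ) (c : ℚ)
    (hv : ∀ i, Int.fract (∑ j, (A i j : ℚ) * v j + β i) ≠ 0)
    (hc : ∑ i, Int.fract (∑ j, (A i j : ℚ) * v j + β i) ≠ c) :
    ∃ δ : ℝ, 0 < δ ∧ ∀ w : Fin d → ℚ, (∀ j, |(w j : ℝ) - (v j : ℝ)| < δ) →
      ∑ i, Int.fract (∑ j, (A i j : ℚ) * w j + β i) ≠ c := by
  classical
  -- the real function
  set F : (Fin d → ℝ) → ℝ := fun w => ∑ i, Int.fract (∑ j, (A i j : ℝ) * w j + (β i : ℝ)) with hF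
  have hcast : ∀ w : Fin d → ℚ, F (fun j => (w j : ℝ)) =
      ((∑ i, Int.fract (∑ j, (A i j : ℚ) * w j + β i) : ℚ) : ℝ) := by
    intro w
    simp only [hF]
    push_cast
    rfl
  have hcont : ContinuousAt F (fun j => (v j : ℝ)) := by
    simp only [hF]
    apply tendsto_finsetSum
    intro i _
    have h1 : ContinuousAt (fun w : Fin d → ℝ => ∑ j, (A i j : ℝ) * w j + (β i : ℝ))
        (fun j => (v j : ℝ)) := by
      apply Continuous.continuousAt
      fun_prop
    have h2 : ContinuousAt Int.fract (∑ j, (A i j : ℝ) * (v j : ℝ) + (β i : ℝ)) := by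
      apply continuousAt_fract
      have := hv i
      intro hh
      apply this
      have h3 : ((Int.fract (∑ j, (A i j : ℚ) * v j + β i) : ℚ) : ℝ) = 0 := by
        push_cast
        rw [← Int.self_sub_floor, sub_eq_zero]
        exact hh
      exact_mod_cast h3
    exact ContinuousAt.comp (f := fun w : Fin d → ℝ => ∑ j, (A i j : ℝ) * w j + (β i : ℝ)) h2 h1
  have hne : F (fun j => (v j : ℝ)) ≠ (c : ℝ) := by
    rw [hcast]
    exact_mod_cast hc
  have hev := hcont.eventually_ne hne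
  rw [Metric.eventually_nhds_iff] at hev
  obtain ⟨ε, hε, hh⟩ := hev
  refine ⟨ε, hε, ?_⟩
  intro w hw
  have h5 : dist (fun j => (w j : ℝ)) (fun j => (v j : ℝ)) < ε := by
    rw [dist_pi_lt_iff hε]
    intro j
    rw [Real.dist_eq]
    exact hw j
  have h6 := hh h5
  rw [hcast] at h6
  exact_mod_cast h6

end Pool.Agent.helper76.FV
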