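import Pool.Agent.helper76.FV.Defs

namespace Pool.Agent.helper76.FV

open Finset Polynomial Filter

theorem QP_leading_aux (P : Polynomial ℚ) (L : ℚ) (r : ℕ) (C : ℚ) (N c : ℕ) (hN : 0 < N)
    (h : ∀ j : ℕ, 0 < c + N * j →
      |P.eval ((c + N * j : ℕ) : ℚ) - L * ((c + N * j : ℕ) : ℚ) ^ (r + 1)|
        ≤ C * ((c + N * j : ℕ) : ℚ) ^ r) :
    (P - Polynomial.C L * X ^ (r + 1)).degree ≤ ((r : ℕ) : WithBot ℕ) := by
  by_contra hcon
  push Not at hcon
  have h1 : ((X : Polynomial ℚ) ^ r).degree < (P - Polynomial.C L * X ^ (r + 1)).degree := by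
    rw [degree_X_pow]
    exact hcon
  have h2 := abs_div_tendsto_atTop_atTop_of_degree_gt (P - Polynomial.C L * X ^ (r + 1)) (X ^ r) h1
    (pow_ne_zero _ X_ne_zero)
  have h3 : Tendsto (fun j : ℕ => ((c + N * j : ℕ) : ℚ)) atTop atTop := by
    apply tendsto_natCast_atTop_atTop.comp
    apply tendsto_atTop_mono (f := fun j : ℕ => j)
    · intro j
      nlinarith
    · exact tendsto_id
  have h4 := (h2.comp h3).eventually (eventually_gt_atTop C)
  obtain ⟨j, hj1, hj2⟩ := (h4.and (eventually_gt_atTop 0)).exists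
  simp only [Function.comp] at hj1
  have hpos : 0 < c + N * j := by positivity
  have hposq : (0 : ℚ) < ((c + N * j : ℕ) : ℚ) := by exact_mod_cast hpos
  have h5 := h j hpos
  simp only [eval_sub, eval_mul, eval_C, eval_pow, eval_X] at hj1
  rw [abs_div, abs_of_pos (pow_pos hposq r), lt_div_iff₀ (pow_pos hposq r)] at hj1
  exact absurd h5 (not_le.mpr hj1)

theorem QP_leading (f : ℕ → ℚ) (hf : QP f) (L : ℚ) (hL : L ≠ 0) (r : ℕ) (C : ℚ)
    (h : ∀ m : ℕ, 0 < m → |f m - L * (m : ℚ) ^ (r + 1)| ≤ C * (m : ℚ) ^ r) :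
    ∃ N : ℕ, 0 < N ∧ ∃ P : ℕ → Polynomial ℚ,
      (∀ c, (P c).natDegree = r + 1 ∧ (P c).leadingCoeff = L) ∧
      ∀ m : ℕ, 0 < m → f m = (P (m % N)).eval (m : ℚ) := by
  obtain ⟨N, hN, P, hP⟩ := hf
  refine ⟨N, hN, fun c => P (c % N), ?_, ?_⟩
  · intro c
    have h1 : (P (c % N) - Polynomial.C L * X ^ (r + 1)).degree ≤ ((r : ℕ) : WithBot ℕ) := by
      apply QP_leading_aux (P (c % N)) L r C N (c % N) hN
      intro j hj
      have h2 := h (c % N + N * j) hj
      rw [hP _ hj] at h2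
      have h3 : (c % N + N * j) % N = c % N := by
        rw [Nat.add_mul_mod_self_left, Nat.mod_mod]
      rw [h3] at h2
      exact h2
    have h4 : P (c % N) = (P (c % N) - Polynomial.C L * X ^ (r + 1)) +
        Polynomial.C L * X ^ (r + 1) := by ring
    have h5 : (Polynomial.C L * X ^ (r + 1) : Polynomial ℚ).degree = (r + 1 : ℕ) :=
      degree_C_mul_X_pow _ hL
    have h6 : (P (c % N) - Polynomial.C L * X ^ (r + 1)).degree <
        (Polynomial.C L * X ^ (r + 1) : Polynomial ℚ).degree := by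
      rw [h5]
      refine lt_of_le_of_lt h1 ?_
      exact_mod_cast Nat.lt_succ_self r
    constructor
    · show (P (c % N)).natDegree = r + 1
      rw [h4]
      rw [natDegree_eq_of_degree_eq_some]
      rw [degree_add_eq_right_of_degree_lt h6, h5]
    · show (P (c % N)).leadingCoeff = L
      rw [h4, leadingCoeff_add_of_degree_lt h6, leadingCoeff_C_mul_X_pow]
  · intro m hm
    show f m = (P (m % N % N)).eval (m : ℚ)
    rw [Nat.mod_mod]
    exact hP m hm

end Pool.Agent.helper76.FV
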